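import Pool.Agent.V5helper28.KP.Stm

/-! Project KP (helper28), job NUL: the intersections of the pieces are null sets. -/

set_option autoImplicit false

namespace Pool.Agent.V5helper76.KP

open MeasureTheory Set
open Pool.Agent.V5helper28.SSK Pool.Agent.V5helper28.KP
open scoped ENNReal

theorem t_NUL : S_NUL := by
  classical
  intro d V U _ P hP hV hfin hvol u u' huu
  set N : ℕ := Fintype.card U with hN
  have hN0 : 0 < N := Fintype.card_pos_iff.2 ⟨u⟩
  have hNne : (N : ℝ≥0∞) ≠ 0 := by exact_mod_cast hN0.ne'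
  have hNtop : (N : ℝ≥0∞) ≠ ∞ := ENNReal.natCast_ne_top N
  set x : ℝ≥0∞ := volume (P u') with hx
  have hall : ∀ w, volume (P w) = x := by
    intro w
    have h1 : (N : ℝ≥0∞) * volume (P w) = N * x := (hvol w).trans (hvol u').symm
    exact (ENNReal.mul_right_inj hNne hNtop).1 h1
  have hxfin : x ≠ ∞ := by
    have h1 : P u' ⊆ V := by rw [hV]; exact subset_iUnion P u'
    exact ne_top_of_le_ne_top hfin (measure_mono h1)
  have hcov : V ⊆ (P u' \ P u) ∪ ⋃ w ∈ Finset.univ.erase u', P w := by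
    intro z hz
    rw [hV, mem_iUnion] at hz
    obtain ⟨w, hw⟩ := hz
    by_cases hwu : w = u'
    · by_cases hzu : z ∈ P u
      · exact Or.inr (mem_iUnion₂.2 ⟨u, Finset.mem_erase.2 ⟨huu, Finset.mem_univ u⟩, hzu⟩)
      · exact Or.inl ⟨hwu ▸ hw, hzu⟩
    · exact Or.inr (mem_iUnion₂.2 ⟨w, Finset.mem_erase.2 ⟨hwu, Finset.mem_univ w⟩, hw⟩)
  have h2 : (N : ℝ≥0∞) * x ≤ volume (P u' \ P u) + ((N - 1 : ℕ) : ℝ≥0∞) * x := by
    calc (N : ℝ≥0∞) * x = volume V := hvol u'
      _ ≤ volume ((P u' \ P u) ∪ ⋃ w ∈ Finset.univ.erase u', P w) := measure_mono hcov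
      _ ≤ volume (P u' \ P u) + volume (⋃ w ∈ Finset.univ.erase u', P w) := measure_union_le _ _
      _ ≤ volume (P u' \ P u) + ∑ w ∈ Finset.univ.erase u', volume (P w) :=
          add_le_add le_rfl (measure_biUnion_finset_le _ _)
      _ = _ := by
          congr 1
          rw [Finset.sum_congr rfl fun w _ => hall w, Finset.sum_const,
            Finset.card_erase_of_mem (Finset.mem_univ u'), Finset.card_univ, nsmul_eq_mul]
  have h3 : volume (P u' ∩ P u) + volume (P u' \ P u) = x := measure_inter_add_sdiff _ (hP u)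
  have h4 : (N : ℝ≥0∞) * x = x + ((N - 1 : ℕ) : ℝ≥0∞) * x := by
    have e : ((N : ℕ) : ℝ≥0∞) = 1 + ((N - 1 : ℕ) : ℝ≥0∞) := by
      rw [← Nat.cast_one, ← Nat.cast_add]
      congr 1
      omega
    rw [e, add_mul, one_mul]
  have h5 : volume (P u' \ P u) + ((N - 1 : ℕ) : ℝ≥0∞) * x ≠ ∞ := by
    refine ENNReal.add_ne_top.2 ⟨?_, ENNReal.mul_ne_top (ENNReal.natCast_ne_top _) hxfin⟩
    exact ne_top_of_le_ne_top hxfin (measure_mono sdiff_subset)
  have h6 : volume (P u' ∩ P u) + (volume (P u' \ P u) + ((N - 1 : ℕ) : ℝ≥0∞) * x) ≤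
      0 + (volume (P u' \ P u) + ((N - 1 : ℕ) : ℝ≥0∞) * x) := by
    rw [← add_assoc, h3, zero_add, ← h4]
    exact h2
  have h7 : volume (P u' ∩ P u) ≤ 0 := (ENNReal.add_le_add_iff_right h5).1 h6
  rw [inter_comm]
  exact le_antisymm h7 bot_le

end Pool.Agent.V5helper76.KP
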